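import Pool.Agent.W873.RS.Stm

set_option autoImplicit false

open MeasureTheory ProbabilityTheory
open scoped ENNReal

namespace Pool.Agent.W995.RS.GA2

theorem pdf_le {x y : ℝ} (h : y ^ 2 ≤ x ^ 2) : gaussianPDF 0 1 x ≤ gaussianPDF 0 1 y := by
  unfold gaussianPDF gaussianPDFReal
  apply ENNReal.ofReal_le_ofReal
  apply mul_le_mul_of_nonneg_left _ (by positivity)
  apply Real.exp_le_exp.2
  simp only [sub_zero, NNReal.coe_one, mul_one]
  linarith

theorem main : Pool.Agent.W873.RS.GA2 := by
  intro r m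
  set A : Set ℝ := Set.Icc (r - m) (r + m) with hA
  set B : Set ℝ := Set.Icc (-m) m with hB
  have hAm : MeasurableSet A := measurableSet_Icc
  have hBm : MeasurableSet B := measurableSet_Icc
  have key : gaussianReal 0 1 (A \ B) ≤ gaussianReal 0 1 (B \ A) := by
    rw [gaussianReal_apply 0 one_ne_zero, gaussianReal_apply 0 one_ne_zero]
    have hpre : (fun x : ℝ => r - x) ⁻¹' (B \ A) = A \ B := by
      ext x
      simp only [hA, hB, Set.mem_preimage, Set.mem_sdiff, Set.mem_Icc]
      constructor
      · rintro ⟨⟨h1, h2⟩, h3⟩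
        refine ⟨⟨by linarith, by linarith⟩, fun h => h3 ⟨by linarith [h.2], by linarith [h.1]⟩⟩
      · rintro ⟨⟨h1, h2⟩, h3⟩
        refine ⟨⟨by linarith, by linarith⟩, fun h => h3 ⟨by linarith [h.2], by linarith [h.1]⟩⟩
    have hmp : MeasurePreserving (fun x : ℝ => r - x) volume volume :=
      MeasureTheory.Measure.measurePreserving_sub_left volume r
    have h2 := hmp.setLIntegral_comp_preimage (hBm.diff hAm) (measurable_gaussianPDF 0 1)
    rw [hpre] at h2
    rw [← h2]
    apply setLIntegral_mono' (hAm.diff hBm)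
    intro x hx
    apply pdf_le
    simp only [hA, hB, Set.mem_sdiff, Set.mem_Icc] at hx
    obtain ⟨⟨h1, h2⟩, h3⟩ := hx
    have hm : 0 ≤ m := by linarith
    have h4 : m < |x| := by
      by_contra h
      push Not at h
      exact h3 (abs_le.1 h)
    have h5 : |r - x| ≤ m := abs_le.2 ⟨by linarith, by linarith⟩
    rw [← sq_abs (r - x), ← sq_abs x]
    have := abs_nonneg (r - x)
    nlinarith
  calc gaussianReal 0 1 A = gaussianReal 0 1 (A ∩ B) + gaussianReal 0 1 (A \ B) :=
        (measure_inter_add_sdiff A hBm).symm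
    _ ≤ gaussianReal 0 1 (B ∩ A) + gaussianReal 0 1 (B \ A) := by
        rw [Set.inter_comm]; exact add_le_add le_rfl key
    _ = gaussianReal 0 1 B := measure_inter_add_sdiff B hAm

end Pool.Agent.W995.RS.GA2
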